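import Pool.Agent.K7.H48.SK.Main

/-!
# Sacks forcing can collapse `ω₁` when `ω₁` is inaccessible to reals

There is a countable transitive model `N` of ZF in which `ω₁` is inaccessible to reals, such that for
every generic filter `H` over `N` for Sacks forcing (the poset of the perfect trees in `N`) the
ordinal `ω₁` of `N` is countable in every transitive model of ZF that contains `N` and `H`, in
particular in `N[H]`. So ZF with the hypothesis does not prove that Sacks forcing preserves `ω₁`.

The definitions are in `Pool.Agent.K7.H48.SK.Defs` (`IsSeq`, `IsPerfect`, `IsGeneric`, `LOf`,
`InaccessibleToReals`) and `Pool.Agent.W868.Defs` (`IsZF`, `IsAleph1`, `IsInj`, `nat`). As `N` is a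
transitive model of ZF, with the set `o(N)` of ordinals, `L[x]` computed in `N` is `L_{o(N)}[x]`; this
is a transitive model of ZF with the same ordinals as `N` that contains `x`, and it is contained in
all such models, so it is `LOf N x`.

The model: force with finite conditions a surjection from `ω` to `ω_k` and labels `T_{k,δ}(s)` (finite
0-1 sequences, for all finite 0-1 sequences `s`) for all `k < ω` and `δ < ω_k`; the group consists of
all permutations of the possible values at each coordinate separately, and a name is symmetric if it
is fixed by the permutations that are trivial on finitely many levels `k`. A set of ordinals in `N`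
with support `θ` takes its values from `ℵ_θ` many possibilities in the ground model, so that `ω₁` of
`N` is `ℵ_ω` of the ground model, and a real with the support `θ` is in a model of ZF in which
`ℵ_{θ+1}` of the ground model is uncountable. The labels define, for every perfect tree `t` with
support `k` and every `δ < ω_k`, a perfect subtree `F(t, T_{k,δ})`, and the permutations hide `T_{k,δ}`
except for its orbit. For fixed `k`, trees of this form with different `δ` are almost disjoint (by
genericity), so that `δ ↦` the least `k` such that `H` contains a tree `F(t, T')` with `T'` in the orbit
of `T_{k,δ}` is an injection from `ω₁` of `N` to `ω`.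
-/

namespace Pool.Agent.Results.MP_694cb9_lc.SacksCollapses

open Pool.Agent.W868 Pool.Agent.K7.H48.SK

/-- There is a countable transitive model `N` of ZF in which `ω₁` is inaccessible to reals, such that
there are generic filters over `N` for Sacks forcing (through each condition) and for every such
filter `H` the first uncountable ordinal `κ` of `N` is countable in each transitive model `N'` of ZF
that contains `N` and `H`. -/
theorem result : ∃ N : Set ZFSet.{0}, N.Countable ∧ IsZF N ∧ InaccessibleToReals N ∧
    (∀ p ∈ N, IsPerfect p → ∃ H, IsGeneric N H ∧ p ∈ H) ∧
    ∃ κ, IsAleph1 N κ ∧ ∀ H, IsGeneric N H →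
      ∀ N' : Set ZFSet.{0}, IsZF N' → N ⊆ N' → H ∈ N' → ∃ f ∈ N', IsInj κ ZFSet.omega f :=
  main

end Pool.Agent.Results.MP_694cb9_lc.SacksCollapses
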